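import Mathlib
import Pool.Agent.H366R3.Osc
import Pool.Agent.H366R3.Topo
import Pool.Agent.H366R3.Energy4

set_option autoImplicit false

open Set Filter Topology MeasureTheory Metric
open scoped ContDiff ENNReal

namespace Pool.Agent.Results.MP_a2a261_an.SlitCounterexample

/-- The complement of `D` in the Riemann sphere. -/
def sphereCompl (D : Set ℂ) : Set (OnePoint ℂ) := ((↑) '' D)ᶜ

/-- The set of connected components of the complement of `D` in the Riemann sphere. -/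
def complComponents (D : Set ℂ) : Set (Set (OnePoint ℂ)) :=
  (fun x => connectedComponentIn (sphereCompl D) x) '' sphereCompl D

/-- `D` is a `k`-connected domain: open, connected, and its complement in the Riemann sphere has
exactly `k` connected components. -/
def IsKConnectedDomain (k : ℕ) (D : Set ℂ) : Prop :=
  IsOpen D ∧ IsConnected D ∧ (complComponents D).encard = k

/-- `Dh` is the weak (distributional) differential of `h` on `Ω`. -/
def IsWeakDifferential (Ω : Set ℂ) (h : ℂ → ℂ) (Dh : ℂ → ℂ →L[ℝ] ℂ) : Prop :=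
  LocallyIntegrableOn h Ω ∧ LocallyIntegrableOn Dh Ω ∧
    ∀ φ : ℂ → ℝ, ContDiff ℝ ∞ φ → HasCompactSupport φ → tsupport φ ⊆ Ω → ∀ v : ℂ,
      ∫ z, (fderiv ℝ φ z v) • h z = - ∫ z, φ z • Dh z v

/-- `h` is a homeomorphism of `Ω` onto `Ω'` which belongs to the Sobolev class `W^{1,2}(Ω)`, with
weak differential `Dh`. -/
structure IsSobolevHomeo (Ω Ω' : Set ℂ) (h : ℂ → ℂ) (Dh : ℂ → ℂ →L[ℝ] ℂ) : Prop where
  bijOn : BijOn h Ω Ω'
  continuousOn : ContinuousOn h Ω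
  continuousOn_inverse : ∃ g : ℂ → ℂ, ContinuousOn g Ω' ∧ ∀ z ∈ Ω, g (h z) = z
  weak : IsWeakDifferential Ω h Dh
  memLp : MemLp h 2 (volume.restrict Ω)
  memLp_differential : MemLp Dh 2 (volume.restrict Ω)

/-- The Dirichlet energy: the integral over `Ω` of the squared Hilbert-Schmidt norm of the
differential. -/
noncomputable def energy (Ω : Set ℂ) (Dh : ℂ → ℂ →L[ℝ] ℂ) : ℝ≥0∞ :=
  ∫⁻ z in Ω, (‖Dh z 1‖ₑ ^ 2 + ‖Dh z Complex.I‖ₑ ^ 2)

/-- The infimum of the energy over all homeomorphisms of `Ω` onto `Ω'` of class `W^{1,2}(Ω)`. -/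
noncomputable def energyInf (Ω Ω' : Set ℂ) : ℝ≥0∞ :=
  ⨅ (h : ℂ → ℂ) (Dh : ℂ → ℂ →L[ℝ] ℂ) (_ : IsSobolevHomeo Ω Ω' h Dh), energy Ω Dh

/-- `h` is an energy-minimal homeomorphism of `Ω` onto `Ω'`. -/
def IsEnergyMinimal (Ω Ω' : Set ℂ) (h : ℂ → ℂ) : Prop :=
  ∃ Dh : ℂ → ℂ →L[ℝ] ℂ, IsSobolevHomeo Ω Ω' h Dh ∧ energy Ω Dh = energyInf Ω Ω'

/-- The horizontal compression. -/
noncomputable def compress (ε : ℝ) (z : ℂ) : ℂ := ⟨ε * z.re, z.im⟩

open Pool.Agent.H366R3 in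
lemma kconn {G K : Set ℂ} (hG : IsOpen G) (hK : IsCompact K) (hKG : K ⊆ G)
    (hKp : IsPreconnected K) (hKn : K.Nontrivial) (hGc : IsPreconnected (sphCompl G))
    (hconn : IsConnected (G \ K)) {p : ℂ} (hp : p ∉ G) :
    IsKConnectedDomain 2 (G \ K) ∧ ∀ C ∈ complComponents (G \ K), C.Nontrivial := by
  obtain ⟨h1, h2⟩ := comps_pair hG hK hKG hKp hKn.nonempty hGc
  have h3 : complComponents (G \ K) = {sphCompl G, (↑) '' K} := h1
  refine ⟨⟨hG.sdiff hK.isClosed, hconn, ?_⟩, ?_⟩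
  · rw [h3, encard_pair h2]; rfl
  · intro C hC
    rw [h3] at hC
    rcases hC with rfl | rfl
    · refine ⟨OnePoint.infty, ?_, (p : OnePoint ℂ), ?_, (OnePoint.coe_ne_infty p).symm⟩
      · rintro ⟨z, -, hz⟩
        exact OnePoint.coe_ne_infty z hz
      · rintro ⟨z, hz, hz'⟩
        rw [OnePoint.coe_injective hz'] at hz
        exact hp hz
    · exact hKn.image OnePoint.coe_injective

open Pool.Agent.H366R3 in
lemma seg_nontrivial {a b : ℝ} (h : a < b) : (seg a b).Nontrivial :=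
  ⟨(a : ℂ), ⟨a, ⟨le_rfl, h.le⟩, rfl⟩, (b : ℂ), ⟨b, ⟨h.le, le_rfl⟩, rfl⟩, fun hab => h.ne (by exact_mod_cast hab)⟩

open Pool.Agent.H366R3 in
lemma image_compress {ε : ℝ} (hε : 0 < ε) :
    compress ε '' (U 1 \ seg 0 (1 / 2)) = (fun z => (ε : ℂ) * z) '' (U ε \ seg 0 (1 / 2)) := by
  have key : ∀ x y : ℝ, (⟨x, ε * y⟩ : ℂ) ∈ U 1 \ seg 0 (1 / 2) ↔ (⟨x, y⟩ : ℂ) ∈ U ε \ seg 0 (1 / 2) := by
    intro x y
    have h1 : (⟨x, ε * y⟩ : ℂ) ∈ U 1 ↔ (⟨x, y⟩ : ℂ) ∈ U ε := by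
      simp only [U, mem_ofPred_eq, one_mul]
      have : ε * y ≠ 0 ↔ y ≠ 0 := by
        constructor
        · rintro h rfl; exact h (mul_zero _)
        · intro h; exact mul_ne_zero hε.ne' h
      rw [this]
    have h2 : (⟨x, ε * y⟩ : ℂ) ∈ seg 0 (1 / 2) ↔ (⟨x, y⟩ : ℂ) ∈ seg 0 (1 / 2) := by
      constructor
      · rintro ⟨t, ht, hte⟩
        have e1 : t = x := congrArg Complex.re hte
        have e2 : 0 = ε * y := congrArg Complex.im hte
        have e3 : y = 0 := by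
          rcases mul_eq_zero.1 e2.symm with h | h
          · exact absurd h hε.ne'
          · exact h
        exact ⟨t, ht, Complex.ext e1 e3.symm⟩
      · rintro ⟨t, ht, hte⟩
        have e1 : t = x := congrArg Complex.re hte
        have e2 : 0 = y := congrArg Complex.im hte
        exact ⟨t, ht, Complex.ext e1 (by show (0 : ℝ) = ε * y; rw [← e2, mul_zero])⟩
    rw [Set.mem_sdiff, Set.mem_sdiff, h1, h2]
  have hmul : ∀ x y : ℝ, (ε : ℂ) * (⟨x, y⟩ : ℂ) = ⟨ε * x, ε * y⟩ := by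
    intro x y
    apply Complex.ext <;> simp
  ext w
  constructor
  · rintro ⟨⟨x, y⟩, hz, rfl⟩
    refine ⟨⟨x, y / ε⟩, ?_, ?_⟩
    · rw [← key, mul_div_cancel₀ _ hε.ne']; exact hz
    · show (ε : ℂ) * (⟨x, y / ε⟩ : ℂ) = ⟨ε * x, y⟩
      rw [hmul, mul_div_cancel₀ _ hε.ne']
  · rintro ⟨⟨x, y⟩, hz, rfl⟩
    refine ⟨⟨x, ε * y⟩, (key x y).2 hz, ?_⟩
    show (⟨ε * x, ε * y⟩ : ℂ) = (ε : ℂ) * (⟨x, y⟩ : ℂ)
    rw [hmul]

open Pool.Agent.H366R3 in
/-- a conformal map onto a bounded open set is energy-minimal -/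
lemma conformal_minimal {Ω Ω' : Set ℂ} (hΩ : IsOpen Ω) (hΩ' : IsOpen Ω')
    (hb : Bornology.IsBounded Ω) (hb' : Bornology.IsBounded Ω') {h g : ℂ → ℂ}
    (hd : DifferentiableOn ℂ h Ω) (hbij : BijOn h Ω Ω') (hg : ContinuousOn g Ω')
    (hgh : ∀ z ∈ Ω, g (h z) = z) : IsEnergyMinimal Ω Ω' h := by
  have hfin' : volume Ω' ≠ ⊤ := hb'.measure_lt_top.ne
  have himg : h '' Ω = Ω' := hbij.image_eq
  have hS : IsSobolevHomeo Ω Ω' h (fderiv ℝ h) := by
    refine ⟨hbij, hd.continuousOn, ⟨g, hg, hgh⟩, weakDeriv_holo hΩ hd, ?_, ?_⟩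
    · obtain ⟨C, hC⟩ := hb'.exists_norm_le
      exact memLp_bdd hΩ hb.measure_lt_top.ne hd.continuousOn (C := C)
        (fun z hz => hC _ (hbij.mapsTo hz))
    · exact memLp_holo hΩ hd hbij.injOn (by rw [himg]; exact hfin')
  refine ⟨fderiv ℝ h, hS, le_antisymm ?_ ?_⟩
  · refine le_iInf fun h' => le_iInf fun Dh' => le_iInf fun hS' => ?_
    have e1 : energy Ω (fderiv ℝ h) = 2 * volume Ω' := by
      have := energy_holo hΩ hd hbij.injOn
      rw [himg] at this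
      exact this
    rw [e1]
    obtain ⟨g', hg'1, hg'2⟩ := hS'.continuousOn_inverse
    have hmap : MapsTo g' Ω' Ω := by
      intro w hw
      obtain ⟨z, hz, rfl⟩ := hS'.bijOn.surjOn hw
      rw [hg'2 z hz]; exact hz
    have hright : ∀ w ∈ Ω', h' (g' w) = w := by
      intro w hw
      obtain ⟨z, hz, rfl⟩ := hS'.bijOn.surjOn hw
      rw [hg'2 z hz]
    exact two_area_le_energy hΩ hΩ' hS'.weak hS'.continuousOn hg'1 hS'.bijOn.mapsTo hmap hg'2 hright
  · exact iInf_le_of_le h (iInf_le_of_le (fderiv ℝ h) (iInf_le_of_le hS le_rfl))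

open Pool.Agent.H366R3 in
lemma U_bounded {ε : ℝ} (hε : 0 < ε) : Bornology.IsBounded (U ε) := by
  refine (isBounded_iff_forall_norm_le).2 ⟨3 + 1 / (2 * ε), ?_⟩
  intro z hz
  have h1 := U_strip3 hz
  have h2 : |z.im| < 1 / (2 * ε) := by
    have := hz.1
    rw [abs_mul, abs_of_pos hε] at this
    rw [lt_div_iff₀ (by positivity)]
    linarith
  have := Complex.norm_le_abs_re_add_abs_im z
  linarith

open Pool.Agent.H366R3 in
/-- **Counterexample.** There are bounded doubly connected domains `Ω`, `Ω'`, none of whose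
complementary components is a point, and a sequence of compressions tending to zero for which
there is an energy-minimal homeomorphism of `Ω` onto the compressed `Ω'`. -/
theorem result : ∃ Ω Ω' : Set ℂ,
    (Bornology.IsBounded Ω ∧ IsKConnectedDomain 2 Ω ∧ ∀ C ∈ complComponents Ω, C.Nontrivial) ∧
    (Bornology.IsBounded Ω' ∧ IsKConnectedDomain 2 Ω' ∧ ∀ C ∈ complComponents Ω', C.Nontrivial) ∧
    ∃ ε : ℕ → ℝ, (∀ j, 0 < ε j) ∧ Tendsto ε atTop (𝓝 0) ∧
      ∀ j, ∃ h : ℂ → ℂ, DifferentiableOn ℂ h Ω ∧ IsEnergyMinimal Ω (compress (ε j) '' Ω') h := by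
  obtain ⟨m, hm0, hm1, hm⟩ := exists_modulus
  have hc : ∀ j : ℕ, ∃ t : ℝ, (j : ℝ) ≤ t ∧ rr t = m := by
    intro j
    obtain ⟨t, ht1, ht2⟩ := hm j
    exact ⟨t, ht1, ht2⟩
  choose t ht1 ht2 using hc
  have htend : Tendsto t atTop atTop := tendsto_atTop_mono ht1 tendsto_natCast_atTop_atTop
  have hball : seg 0 m ⊆ ball (0 : ℂ) 1 := by
    rintro z ⟨x, hx, rfl⟩
    rw [mem_ball_zero_iff, Complex.norm_real, Real.norm_eq_abs, abs_of_nonneg hx.1]
    linarith [hx.2]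
  have hsegU : ∀ ε : ℝ, seg 0 (1 / 2) ⊆ U ε := by
    rintro ε z ⟨x, hx, rfl⟩
    apply U_real
    rw [abs_of_nonneg hx.1]
    linarith [hx.2]
  have hee0 : ee 0 = 1 := by simp [ee]
  have hconn : IsConnected (U 1 \ seg 0 (1 / 2)) := by
    have h1 := (rm 0).bij (ee_pos 0).ne'
    have h2 := slitDisk_connected (rm 0).r0 (rm 0).r1
    rw [hee0] at h1
    rw [← h1.image_eq]
    exact h2.image _ ((rm 0).dg.continuousOn.mono sdiff_subset)
  have hΩ := kconn (G := ball (0 : ℂ) 1) (K := seg 0 m) isOpen_ball (seg_compact 0 m) hball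
    (seg_preconnected 0 m) (seg_nontrivial hm0) (sphCompl_preconnected ball_H)
    (slitDisk_connected hm0 hm1) (p := 1) (by simp)
  have hΩ' := kconn (G := U 1) (K := seg 0 (1 / 2)) (U_open 1 one_ne_zero) (seg_compact _ _)
    (hsegU 1) (seg_preconnected _ _) (seg_nontrivial (by norm_num)) (sphCompl_preconnected (U_H 1))
    hconn (p := ((3 : ℝ) : ℂ)) (by
      intro h
      have := U_strip3 h
      rw [Complex.ofReal_re, abs_of_pos (by norm_num)] at this
      linarith)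
  refine ⟨slitDisk m, U 1 \ seg 0 (1 / 2), ⟨isBounded_ball.subset sdiff_subset, hΩ⟩,
    ⟨(U_bounded one_pos).subset sdiff_subset, hΩ'⟩, fun j => ee (t j), fun j => ee_pos _,
    ee_tendsto.comp htend, ?_⟩
  intro j
  set ε := ee (t j) with hε
  have hεp : 0 < ε := ee_pos _
  have hεc : (ε : ℂ) ≠ 0 := by exact_mod_cast hεp.ne'
  have hR := rm (t j)
  have hbij := hR.bij hεp.ne'
  rw [ht2 j] at hbij
  have hdg : DifferentiableOn ℂ (gg (t j)) (slitDisk m) := hR.dg.mono sdiff_subset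
  have hopen : IsOpen (compress ε '' (U 1 \ seg 0 (1 / 2))) := by
    rw [image_compress hεp]
    exact (Homeomorph.mulLeft₀ (ε : ℂ) hεc).isOpenMap _
      ((U_open ε hεp.ne').sdiff (seg_compact _ _).isClosed)
  have hbdd : Bornology.IsBounded (compress ε '' (U 1 \ seg 0 (1 / 2))) := by
    rw [image_compress hεp]
    obtain ⟨C, hC⟩ := (U_bounded hεp).exists_norm_le
    refine (isBounded_iff_forall_norm_le).2 ⟨ε * C, ?_⟩
    rintro w ⟨z, hz, rfl⟩
    show ‖(ε : ℂ) * z‖ ≤ ε * C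
    rw [norm_mul, Complex.norm_real, Real.norm_eq_abs, abs_of_pos hεp]
    exact mul_le_mul_of_nonneg_left (hC z hz.1) hεp.le
  refine ⟨fun z => (ε : ℂ) * gg (t j) z, hdg.const_mul _, ?_⟩
  apply conformal_minimal (g := fun w => psi (t j) (w / ε)) (slitDisk_open m) hopen
    (isBounded_ball.subset sdiff_subset) hbdd (hdg.const_mul _)
  · rw [image_compress hεp]
    refine ⟨?_, ?_, ?_⟩
    · intro z hz
      exact ⟨gg (t j) z, hbij.mapsTo hz, rfl⟩
    · intro z hz w hw hzw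
      exact hbij.injOn hz hw (mul_left_cancel₀ hεc hzw)
    · rintro w ⟨u, hu, rfl⟩
      obtain ⟨z, hz, rfl⟩ := hbij.surjOn hu
      exact ⟨z, hz, rfl⟩
  · rw [image_compress hεp]
    apply (hR.dψ.continuousOn).comp (by fun_prop)
    rintro w ⟨u, hu, rfl⟩
    show (ε : ℂ) * u / ε ∈ U (ee (t j))
    rw [mul_div_cancel_left₀ _ hεc]
    exact hu.1
  · intro z hz
    show psi (t j) ((ε : ℂ) * gg (t j) z / ε) = z
    rw [mul_div_cancel_left₀ _ hεc]
    exact hR.ψg z hz.1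

end Pool.Agent.Results.MP_a2a261_an.SlitCounterexample
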